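import Mathlib

/-!
# The tolerant learning hierarchy is dense

A family `K` of nonempty c.e. sets is `E`-learnable if and only if every `A ∈ K` has a finite
tell-tale set `D ⊆ A` such that all `B ∈ K` with `D ⊆ B ⊆ A` are `E`-equivalent to `A`. So
`E ≤ F` holds if and only if, near every `A` in the topology generated by the sets `[D, A]`, all sets
`E`-equivalent to `A` are `F`-equivalent to `A`. If `E < F`, then sets `B` which are `F`- but not
`E`-equivalent to some `A` converge to `A` from below; adding to the `E`-class of `A` those with a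
level (least element of `A \ B`) in a suitable set of levels gives a relation strictly between.
-/

set_option autoImplicit false

open Set Filter

namespace Pool.Agent.Results.MP_555fce_lc.Density

/-! ### Definitions used in the statement -/

/-- The `e`-th c.e. set. -/
def W (e : ℕ) : Set ℕ := {x | ((Denumerable.ofNat Nat.Partrec.Code e).eval x).Dom}

/-- A tolerance relation: an equivalence relation on `ℕ` containing `=^ce`. -/
structure Tol where
  /-- the relation -/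
  rel : ℕ → ℕ → Prop
  equiv : Equivalence rel
  ce : ∀ e e', W e = W e' → rel e e'

/-- `μ[s] = (μ 0, …, μ (s-1))`. -/
def pre (μ : ℕ → ℕ) (s : ℕ) : List ℕ := (List.range s).map μ

/-- `K` is a family of nonempty c.e. sets. -/
def IsFamily (K : Set (Set ℕ)) : Prop := ∀ A ∈ K, A.Nonempty ∧ ∃ e, W e = A

/-- `K` is `E`-learnable. -/
def Learnable (E : Tol) (K : Set (Set ℕ)) : Prop :=
  ∃ M : List ℕ → ℕ, ∀ e, W e ∈ K → ∀ μ : ℕ → ℕ, range μ = W e →
    ∃ i, (∀ᶠ s in atTop, M (pre μ s) = i) ∧ E.rel i e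

/-- `E ≤ F`: every `E`-learnable family of nonempty c.e. sets is `F`-learnable. -/
instance : Preorder Tol where
  le E F := ∀ K, IsFamily K → Learnable E K → Learnable F K
  le_refl _ _ _ h := h
  le_trans _ _ _ h1 h2 K hK h := h2 K hK (h1 K hK h)

theorem le_def (E F : Tol) : E ≤ F ↔ ∀ K, IsFamily K → Learnable E K → Learnable F K := Iff.rfl

/-- The tolerant learning hierarchy: tolerance relations modulo the equivalence given by `≤`. -/
abbrev TLH := Antisymmetrization Tol (· ≤ ·)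

/-! ### Tell-tales -/

/-- Every set in `K` has a tell-tale. -/
def TellTale (E : Tol) (K : Set (Set ℕ)) : Prop :=
  ∀ e, W e ∈ K → ∃ D : Finset ℕ, (∀ x ∈ D, x ∈ W e) ∧
    ∀ e', W e' ∈ K → (∀ x ∈ D, x ∈ W e') → W e' ⊆ W e → E.rel e' e

theorem pre_length (μ : ℕ → ℕ) (s : ℕ) : (pre μ s).length = s := by simp [pre]

theorem mem_pre {μ : ℕ → ℕ} {s x : ℕ} : x ∈ pre μ s ↔ ∃ k < s, μ k = x := by
  simp [pre]

theorem exists_range {A : Set ℕ} (h : A.Nonempty) : ∃ ν : ℕ → ℕ, range ν = A := by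
  obtain ⟨f, hf⟩ := (to_countable A).exists_eq_range h
  exact ⟨f, hf.symm⟩

/-- first `σ`, then `ν` -/
def cat (σ : List ℕ) (ν : ℕ → ℕ) (k : ℕ) : ℕ :=
  if h : k < σ.length then σ[k] else ν (k - σ.length)

theorem pre_cat (σ : List ℕ) (ν : ℕ → ℕ) (s : ℕ) :
    pre (cat σ ν) (σ.length + s) = σ ++ pre ν s := by
  apply List.ext_getElem
  · simp [pre_length]
  · intro i h1 h2
    rw [pre_length] at h1
    simp only [pre, List.getElem_map, List.getElem_range]
    by_cases h : i < σ.length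
    · rw [List.getElem_append_left h]
      simp [cat, h]
    · rw [List.getElem_append_right (by omega)]
      simp [cat, h]

theorem range_cat {σ : List ℕ} {ν : ℕ → ℕ} {A : Set ℕ} (hσ : ∀ x ∈ σ, x ∈ A)
    (hν : range ν = A) : range (cat σ ν) = A := by
  apply Subset.antisymm
  · rintro _ ⟨k, rfl⟩
    unfold cat
    split_ifs with h
    · exact hσ _ (List.getElem_mem h)
    · rw [← hν]; exact mem_range_self _
  · rw [← hν]
    rintro _ ⟨k, rfl⟩
    refine ⟨σ.length + k, ?_⟩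
    simp [cat]

/-- The limit of an increasing sequence of lists. -/
theorem exists_limit (g : ℕ → List ℕ) (hg : ∀ n, g n <+: g (n + 1))
    (hl : ∀ n, n ≤ (g n).length) : ∃ μ : ℕ → ℕ, ∀ n ρ, ρ <+: g n → pre μ ρ.length = ρ := by
  have hmono : ∀ m n, m ≤ n → g m <+: g n := by
    intro m n hmn
    induction n, hmn using Nat.le_induction with
    | base => exact List.prefix_rfl
    | succ n _ ih => exact ih.trans (hg n)
  refine ⟨fun k => (g (k + 1))[k]'(by have := hl (k + 1); omega), fun n ρ hρ => ?_⟩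
  apply List.ext_getElem
  · simp [pre_length]
  · intro i h1 h2
    simp only [pre, List.getElem_map, List.getElem_range]
    have h3 : i < (g (i + 1)).length := by have := hl (i + 1); omega
    have h4 : ρ[i] = (g n)[i]'(h2.trans_le hρ.length_le) := hρ.getElem h2
    rw [h4]
    rcases le_total (i + 1) n with h | h
    · exact (hmono _ _ h).getElem h3
    · exact ((hmono _ _ h).getElem (h2.trans_le hρ.length_le)).symm

/-- Existence of a locking sequence. -/
theorem exists_locking {E : Tol} {K : Set (Set ℕ)} (hK : IsFamily K) {M : List ℕ → ℕ}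
    (hM : ∀ e, W e ∈ K → ∀ μ : ℕ → ℕ, range μ = W e →
      ∃ i, (∀ᶠ s in atTop, M (pre μ s) = i) ∧ E.rel i e) {e : ℕ} (he : W e ∈ K) :
    ∃ σ : List ℕ, (∀ x ∈ σ, x ∈ W e) ∧ ∀ τ : List ℕ, (∀ x ∈ τ, x ∈ W e) → M (σ ++ τ) = M σ := by
  classical
  by_contra hcon
  push Not at hcon
  obtain ⟨ν, hν⟩ := exists_range (hK _ he).1
  choose τ hτ using hcon
  -- lists of elements of `W e`
  let L := {σ : List ℕ // ∀ x ∈ σ, x ∈ W e}
  have hνn : ∀ n, ν n ∈ W e := fun n => hν ▸ mem_range_self n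
  let mid : ℕ → L → L := fun n σ => ⟨σ.1 ++ [ν n], by
    intro x hx
    rcases List.mem_append.1 hx with h | h
    · exact σ.2 x h
    · rw [List.mem_singleton.1 h]; exact hνn n⟩
  let nxt : ℕ → L → L := fun n σ => ⟨(mid n σ).1 ++ τ (mid n σ).1 (mid n σ).2, by
    intro x hx
    rcases List.mem_append.1 hx with h | h
    · exact (mid n σ).2 x h
    · exact (hτ (mid n σ).1 (mid n σ).2).1 x h⟩
  let g : ℕ → L := fun n => Nat.rec ⟨[], by simp⟩ (fun n σ => nxt n σ) n
  have hg1 : ∀ n, (mid n (g n)).1 <+: (g (n + 1)).1 := fun n => List.prefix_append _ _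
  have hg0 : ∀ n, (g n).1 <+: (mid n (g n)).1 := fun n => List.prefix_append _ _
  have hg : ∀ n, (g n).1 <+: (g (n + 1)).1 := fun n => (hg0 n).trans (hg1 n)
  have hlen : ∀ n, (g n).1.length + 1 ≤ (g (n + 1)).1.length := by
    intro n
    have h1 := (hg1 n).length_le
    have h2 : (mid n (g n)).1.length = (g n).1.length + 1 := by simp [mid]
    omega
  have hl : ∀ n, n ≤ (g n).1.length := by
    intro n
    induction n with
    | zero => omega
    | succ n ih => have := hlen n; omega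
  obtain ⟨μ, hμ⟩ := exists_limit (fun n => (g n).1) hg hl
  have hr : range μ = W e := by
    apply Subset.antisymm
    · rintro _ ⟨k, rfl⟩
      have h1 := hμ (k + 1) _ List.prefix_rfl
      have h2 : μ k ∈ pre μ (g (k + 1)).1.length := mem_pre.2 ⟨k, by have := hl (k + 1); omega, rfl⟩
      rw [h1] at h2
      exact (g (k + 1)).2 _ h2
    · rw [← hν]
      rintro _ ⟨n, rfl⟩
      have h1 := hμ (n + 1) _ (hg1 n)
      have h2 : ν n ∈ (mid n (g n)).1 := by simp [mid]
      rw [← h1] at h2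
      obtain ⟨k, _, hk⟩ := mem_pre.1 h2
      exact ⟨k, hk⟩
  obtain ⟨i, hi, -⟩ := hM e he μ hr
  obtain ⟨N, hN⟩ := eventually_atTop.1 hi
  have h1 := hN (mid N (g N)).1.length (by
    have : (mid N (g N)).1.length = (g N).1.length + 1 := by simp [mid]
    have := hl N; omega)
  rw [hμ (N + 1) _ (hg1 N)] at h1
  have h2 := hN (g (N + 1)).1.length (by have := hl (N + 1); omega)
  rw [hμ (N + 1) _ List.prefix_rfl] at h2
  refine (hτ (mid N (g N)).1 (mid N (g N)).2).2 ?_
  rw [h1]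
  exact h2

theorem tellTale_of_learnable {E : Tol} {K : Set (Set ℕ)} (hK : IsFamily K)
    (h : Learnable E K) : TellTale E K := by
  classical
  obtain ⟨M, hM⟩ := h
  intro e he
  obtain ⟨σ, h1, h2⟩ := exists_locking hK hM he
  have key : ∀ e', W e' ∈ K → (∀ x ∈ σ, x ∈ W e') → W e' ⊆ W e → E.rel (M σ) e' := by
    intro e' he' hσ hsub
    obtain ⟨ν, hν⟩ := exists_range (hK _ he').1
    obtain ⟨i, hi, hie⟩ := hM e' he' (cat σ ν) (range_cat hσ hν)
    obtain ⟨N, hN⟩ := eventually_atTop.1 hi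
    have h3 := hN (σ.length + N) (by omega)
    rw [pre_cat, h2] at h3
    · rw [h3]; exact hie
    · intro x hx
      obtain ⟨k, _, rfl⟩ := mem_pre.1 hx
      exact hsub (hν ▸ mem_range_self k)
  refine ⟨σ.toFinset, fun x hx => h1 x (List.mem_toFinset.1 hx), fun e' he' hD hsub => ?_⟩
  have h3 := key e' he' (fun x hx => hD x (List.mem_toFinset.2 hx)) hsub
  have h4 := key e he h1 subset_rfl
  exact E.equiv.trans (E.equiv.symm h3) h4

theorem learnable_of_tellTale {E : Tol} {K : Set (Set ℕ)} (h : TellTale E K) :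
    Learnable E K := by
  classical
  choose! D hD hT using h
  let P : List ℕ → ℕ → Prop := fun σ e => W e ∈ K ∧ (∀ x ∈ D e, x ∈ σ) ∧ ∀ x ∈ σ, x ∈ W e
  refine ⟨fun σ => if h : ∃ e, P σ e then Nat.find h else 0, fun e0 he0 μ hμ => ?_⟩
  let Q : ℕ → Prop := fun e => W e ∈ K ∧ (∀ x ∈ D e, x ∈ W e0) ∧ W e0 ⊆ W e
  have hQ : ∃ e, Q e := ⟨e0, he0, hD e0 he0, subset_rfl⟩
  refine ⟨Nat.find hQ, ?_, ?_⟩
  · have h1 : ∀ᶠ s in atTop, P (pre μ s) (Nat.find hQ) := by
      obtain ⟨h2, h3, h4⟩ := Nat.find_spec hQ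
      have h5 : ∀ x ∈ D (Nat.find hQ), ∀ᶠ s in atTop, x ∈ pre μ s := by
        intro x hx
        obtain ⟨k, hk⟩ := hμ.symm ▸ h3 x hx
        exact eventually_atTop.2 ⟨k + 1, fun s hs => mem_pre.2 ⟨k, by omega, hk⟩⟩
      have h6 := (Filter.eventually_all_finset (D (Nat.find hQ))).2 h5
      filter_upwards [h6] with s hs
      refine ⟨h2, hs, fun x hx => h4 ?_⟩
      obtain ⟨k, _, rfl⟩ := mem_pre.1 hx
      exact hμ ▸ mem_range_self k
    have h2 : ∀ e < Nat.find hQ, ∀ᶠ s in atTop, ¬ P (pre μ s) e := by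
      intro e he
      have h3 := Nat.find_min hQ he
      by_cases h4 : W e ∈ K
      · by_cases h5 : ∀ x ∈ D e, x ∈ W e0
        · have h6 : ¬ W e0 ⊆ W e := fun h => h3 ⟨h4, h5, h⟩
          obtain ⟨x, hx, hxe⟩ := not_subset.1 h6
          obtain ⟨k, hk⟩ := hμ.symm ▸ hx
          exact eventually_atTop.2 ⟨k + 1, fun s hs hP => hxe (hP.2.2 x
            (mem_pre.2 ⟨k, by omega, hk⟩))⟩
        · push Not at h5
          obtain ⟨x, hx, hxe⟩ := h5
          refine Eventually.of_forall fun s hP => hxe ?_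
          obtain ⟨k, _, hk⟩ := mem_pre.1 (hP.2.1 x hx)
          rw [← hk]
          exact hμ ▸ mem_range_self k
      · exact Eventually.of_forall fun s hP => h4 hP.1
    have h3 : ∀ᶠ s in atTop, ∀ e ∈ Finset.range (Nat.find hQ), ¬ P (pre μ s) e :=
      (Filter.eventually_all_finset _).2 fun e he => h2 e (Finset.mem_range.1 he)
    filter_upwards [h1, h3] with s hs1 hs2
    have hex : ∃ e, P (pre μ s) e := ⟨_, hs1⟩
    rw [dif_pos hex]
    apply le_antisymm
    · exact Nat.find_min' hex hs1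
    · by_contra hlt
      push Not at hlt
      exact hs2 _ (Finset.mem_range.2 hlt) (Nat.find_spec hex)
  · obtain ⟨h2, h3, h4⟩ := Nat.find_spec hQ
    exact E.equiv.symm (hT _ h2 e0 he0 h3 h4)

theorem learnable_iff {E : Tol} {K : Set (Set ℕ)} (hK : IsFamily K) :
    Learnable E K ↔ TellTale E K :=
  ⟨tellTale_of_learnable hK, learnable_of_tellTale⟩

/-- The order in terms of local inclusion of classes. -/
theorem le_iff (E F : Tol) : E ≤ F ↔ ∀ e, (W e).Nonempty → ∃ D : Finset ℕ, (∀ x ∈ D, x ∈ W e) ∧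
    ∀ e', (W e').Nonempty → (∀ x ∈ D, x ∈ W e') → W e' ⊆ W e → E.rel e' e → F.rel e' e := by
  classical
  constructor
  · intro h e he
    by_contra hcon
    push Not at hcon
    choose g hg using hcon
    let K : Set (Set ℕ) := {A | A = W e ∨ ∃ D, ∃ hD : ∀ x ∈ D, x ∈ W e, A = W (g D hD)}
    have hK : IsFamily K := by
      rintro A (rfl | ⟨D, hD, rfl⟩)
      · exact ⟨he, e, rfl⟩
      · exact ⟨(hg D hD).1, _, rfl⟩
    have hall : ∀ e1, W e1 ∈ K → E.rel e1 e := by
      rintro e1 (h1 | ⟨D, hD, h1⟩)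
      · exact E.ce _ _ h1
      · exact E.equiv.trans (E.ce _ _ h1) (hg D hD).2.2.2.1
    have hE : Learnable E K := by
      rw [learnable_iff hK]
      intro e1 h1
      exact ⟨∅, by simp, fun e2 h2 _ _ => E.equiv.trans (hall e2 h2) (E.equiv.symm (hall e1 h1))⟩
    have hF := (learnable_iff hK).1 (h K hK hE) e (Or.inl rfl)
    obtain ⟨D, hD, h1⟩ := hF
    have h2 := hg D hD
    exact h2.2.2.2.2 (h1 (g D hD) (Or.inr ⟨D, hD, rfl⟩) h2.2.1 h2.2.2.1)
  · intro h K hK hE
    rw [learnable_iff hK] at hE ⊢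
    intro e he
    obtain ⟨D, hD, h1⟩ := hE e he
    obtain ⟨D', hD', h2⟩ := h e (hK _ he).1
    refine ⟨D ∪ D', fun x hx => ?_, fun e' he' h3 h4 => ?_⟩
    · rcases Finset.mem_union.1 hx with hx | hx
      exacts [hD x hx, hD' x hx]
    · exact h2 e' (hK _ he').1 (fun x hx => h3 x (Finset.mem_union_right _ hx)) h4
        (h1 e' he' (fun x hx => h3 x (Finset.mem_union_left _ hx)) h4)

/-! ### Density -/

/-- The intersection of two tolerance relations. -/
def inter (E F : Tol) : Tol where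
  rel i j := E.rel i j ∧ F.rel i j
  equiv := ⟨fun i => ⟨E.equiv.refl i, F.equiv.refl i⟩,
    fun h => ⟨E.equiv.symm h.1, F.equiv.symm h.2⟩,
    fun h h' => ⟨E.equiv.trans h.1 h'.1, F.equiv.trans h.2 h'.2⟩⟩
  ce e e' h := ⟨E.ce e e' h, F.ce e e' h⟩

theorem inter_le_left (E F : Tol) : inter E F ≤ E :=
  (le_iff _ _).2 fun e _ => ⟨∅, by simp, fun _ _ _ _ h => h.1⟩

theorem le_inter {E F : Tol} (h : E ≤ F) : E ≤ inter E F := by
  rw [le_iff] at h ⊢
  intro e he
  obtain ⟨D, hD, h1⟩ := h e he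
  exact ⟨D, hD, fun e' h2 h3 h4 h5 => ⟨h5, h1 e' h2 h3 h4 h5⟩⟩

section

variable (A : Set ℕ) (L : Set ℕ)

/-- `B` is a proper subset of `A` whose level, the least element of `A \ B`, is in `L`. -/
def Side (B : Set ℕ) : Prop := ∃ n ∈ L, n ∈ A ∧ n ∉ B ∧ B ⊆ A ∧ ∀ m < n, m ∈ A → m ∈ B

variable {A L}

theorem side_level {B : Set ℕ} {n : ℕ} (hnA : n ∈ A) (hnB : n ∉ B) (hB : B ⊆ A)
    (hn : ∀ m < n, m ∈ A → m ∈ B) : Side A L B ↔ n ∈ L := by
  constructor
  · rintro ⟨k, hk, hkA, hkB, _, hkm⟩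
    rcases lt_trichotomy k n with h | h | h
    · exact absurd (hn k h hkA) hkB
    · exact h ▸ hk
    · exact absurd (hkm n h hnA) hnB
  · intro h
    exact ⟨n, h, hnA, hnB, hB, hn⟩

theorem exists_level {B : Set ℕ} (hB : B ⊆ A) (hne : B ≠ A) :
    ∃ n, n ∈ A ∧ n ∉ B ∧ ∀ m < n, m ∈ A → m ∈ B := by
  classical
  have h : ∃ n, n ∈ A ∧ n ∉ B := by
    by_contra hcon
    push Not at hcon
    exact hne (Subset.antisymm hB hcon)
  refine ⟨Nat.find h, (Nat.find_spec h).1, (Nat.find_spec h).2, fun m hm hmA => ?_⟩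
  by_contra hmB
  exact Nat.find_min h hm ⟨hmA, hmB⟩

/-- `Side` is locally constant off `A`. -/
theorem side_local {P : Set ℕ} (hne : P ≠ A) : ∃ D : Finset ℕ, (∀ x ∈ D, x ∈ P) ∧
    ∀ B : Set ℕ, (∀ x ∈ D, x ∈ B) → B ⊆ P → (Side A L B ↔ Side A L P) := by
  classical
  by_cases hP : P ⊆ A
  · obtain ⟨n, h1, h2, h3⟩ := exists_level hP hne
    refine ⟨(Finset.range n).filter (· ∈ P), fun x hx => (Finset.mem_filter.1 hx).2,
      fun B hD hB => ?_⟩
    rw [side_level h1 h2 hP h3, side_level h1 (fun h => h2 (hB h)) (hB.trans hP)]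
    intro m hm hmA
    exact hD m (Finset.mem_filter.2 ⟨Finset.mem_range.2 hm, h3 m hm hmA⟩)
  · obtain ⟨x, hx, hxA⟩ := not_subset.1 hP
    refine ⟨{x}, by simpa using hx, fun B hD hB => ?_⟩
    have hxB : x ∈ B := hD x (by simp)
    exact ⟨fun ⟨_, _, _, _, h, _⟩ => absurd (h hxB) hxA,
      fun ⟨_, _, _, _, h, _⟩ => absurd (h hx) hxA⟩

end

/-- The intermediate relation. -/
def mid (E F : Tol) (e0 : ℕ) (L : Set ℕ) : Tol where
  rel i j :=
    ((E.rel i e0 ∨ (F.rel i e0 ∧ Side (W e0) L (W i))) ∧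
      (E.rel j e0 ∨ (F.rel j e0 ∧ Side (W e0) L (W j)))) ∨
    (¬ (E.rel i e0 ∨ (F.rel i e0 ∧ Side (W e0) L (W i))) ∧
      ¬ (E.rel j e0 ∨ (F.rel j e0 ∧ Side (W e0) L (W j))) ∧ E.rel i j ∧
      (Side (W e0) L (W i) ↔ Side (W e0) L (W j)))
  equiv := by
    constructor
    · intro i
      by_cases h : (E.rel i e0 ∨ (F.rel i e0 ∧ Side (W e0) L (W i)))
      · exact Or.inl ⟨h, h⟩
      · exact Or.inr ⟨h, h, E.equiv.refl i, Iff.rfl⟩
    · rintro i j (⟨h1, h2⟩ | ⟨h1, h2, h3, h4⟩)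
      · exact Or.inl ⟨h2, h1⟩
      · exact Or.inr ⟨h2, h1, E.equiv.symm h3, h4.symm⟩
    · rintro i j k (⟨h1, h2⟩ | ⟨h1, h2, h3, h4⟩) (⟨h5, h6⟩ | ⟨h5, h6, h7, h8⟩)
      · exact Or.inl ⟨h1, h6⟩
      · exact absurd h2 h5
      · exact absurd h5 h2
      · exact Or.inr ⟨h1, h6, E.equiv.trans h3 h7, h4.trans h8⟩
  ce := by
    intro i j h
    have hE := E.ce i j h
    have hF := F.ce i j h
    have h1 : (E.rel i e0 ∨ (F.rel i e0 ∧ Side (W e0) L (W i))) ↔
        (E.rel j e0 ∨ (F.rel j e0 ∧ Side (W e0) L (W j))) := by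
      rw [h]
      exact or_congr ⟨fun h => E.equiv.trans (E.equiv.symm hE) h, fun h => E.equiv.trans hE h⟩
        (and_congr_left fun _ => ⟨fun h => F.equiv.trans (F.equiv.symm hF) h,
          fun h => F.equiv.trans hF h⟩)
    by_cases h2 : (E.rel i e0 ∨ (F.rel i e0 ∧ Side (W e0) L (W i)))
    · exact Or.inl ⟨h2, h1.1 h2⟩
    · exact Or.inr ⟨h2, fun h3 => h2 (h1.2 h3), hE, by rw [h]⟩

/-- An infinite set of numbers splits into two infinite sets. -/
theorem exists_split {O : Set ℕ} (hO : O.Infinite) : ∃ L : Set ℕ, (O ∩ L).Infinite ∧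
    (O \ L).Infinite := by
  classical
  have hO' : {n | n ∈ O}.Infinite := hO
  have hinj : Function.Injective (Nat.nth (· ∈ O)) := Nat.nth_injective hO'
  refine ⟨range fun k => Nat.nth (· ∈ O) (2 * k), ?_, ?_⟩
  · refine (infinite_range_of_injective (f := fun k => Nat.nth (· ∈ O) (2 * k)) fun a b h => ?_).mono
      fun x hx => ⟨?_, hx⟩
    · have := hinj h; omega
    · obtain ⟨k, rfl⟩ := hx
      exact Nat.nth_mem_of_infinite hO' _
  · refine (infinite_range_of_injective (f := fun k => Nat.nth (· ∈ O) (2 * k + 1))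
      fun a b h => ?_).mono fun x hx => ⟨?_, ?_⟩
    · have := hinj h; omega
    · obtain ⟨k, rfl⟩ := hx
      exact Nat.nth_mem_of_infinite hO' _
    · obtain ⟨k, rfl⟩ := hx
      rintro ⟨j, hj⟩
      have := hinj hj
      omega

theorem dense_of_subset {E F : Tol} (hEF : ∀ i j, E.rel i j → F.rel i j) (hnot : ¬ F ≤ E) :
    ∃ G : Tol, E < G ∧ G < F := by
  classical
  rw [le_iff] at hnot
  push Not at hnot
  obtain ⟨e0, hne, h0⟩ := hnot
  -- the levels
  let O : Set ℕ := {n | ∃ e', (W e').Nonempty ∧ W e' ⊆ W e0 ∧ F.rel e' e0 ∧ ¬ E.rel e' e0 ∧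
    n ∈ W e0 ∧ n ∉ W e' ∧ ∀ m < n, m ∈ W e0 → m ∈ W e'}
  have hO : O.Infinite := by
    rw [Set.infinite_iff_exists_gt]
    intro a
    obtain ⟨e', h1, h2, h3, h4, h5⟩ := h0 ((Finset.range (a + 1)).filter (· ∈ W e0))
      fun x hx => (Finset.mem_filter.1 hx).2
    have hne' : W e' ≠ W e0 := fun h => h5 (E.ce _ _ h)
    obtain ⟨n, h6, h7, h8⟩ := exists_level h3 hne'
    refine ⟨n, ⟨e', h1, h3, h4, h5, h6, h7, h8⟩, ?_⟩
    by_contra hcon
    exact h7 (h2 n (Finset.mem_filter.2 ⟨Finset.mem_range.2 (by omega), h6⟩))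
  obtain ⟨L, hL1, hL2⟩ := exists_split hO
  -- sets in `O` beyond a given finite set
  have hbeyond : ∀ (O' : Set ℕ), O' ⊆ O → O'.Infinite → ∀ D : Finset ℕ, (∀ x ∈ D, x ∈ W e0) →
      ∃ n ∈ O', ∃ e', (W e').Nonempty ∧ W e' ⊆ W e0 ∧ F.rel e' e0 ∧ ¬ E.rel e' e0 ∧
        n ∈ W e0 ∧ n ∉ W e' ∧ (∀ m < n, m ∈ W e0 → m ∈ W e') ∧ ∀ x ∈ D, x ∈ W e' := by
    intro O' hO' hinf D hD
    obtain ⟨n, hn, hgt⟩ := (Set.infinite_iff_exists_gt.1 hinf) (D.sup id)
    obtain ⟨e', h1, h2, h3, h4, h5, h6, h7⟩ := hO' hn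
    exact ⟨n, hn, e', h1, h2, h3, h4, h5, h6, h7, fun x hx =>
      h7 x ((Finset.le_sup (f := id) hx).trans_lt hgt) (hD x hx)⟩
  refine ⟨mid E F e0 L, ?_, ?_⟩
  · rw [lt_iff_le_not_ge]
    constructor
    · rw [le_iff]
      intro e he
      by_cases hE0 : E.rel e e0
      · exact ⟨∅, by simp, fun e' _ _ _ h => Or.inl ⟨Or.inl (E.equiv.trans h hE0), Or.inl hE0⟩⟩
      · have hne' : W e ≠ W e0 := fun h => hE0 (E.ce _ _ h)
        obtain ⟨D, hD, h1⟩ := side_local (L := L) hne'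
        refine ⟨D, hD, fun e' _ h2 h3 h4 => ?_⟩
        have h5 := h1 (W e') h2 h3
        have h6 : ¬ E.rel e' e0 := fun h => hE0 (E.equiv.trans (E.equiv.symm h4) h)
        have h7 : F.rel e' e0 ↔ F.rel e e0 :=
          ⟨fun h => F.equiv.trans (F.equiv.symm (hEF _ _ h4)) h,
            fun h => F.equiv.trans (hEF _ _ h4) h⟩
        by_cases h8 : F.rel e e0 ∧ Side (W e0) L (W e)
        · exact Or.inl ⟨Or.inr ⟨h7.2 h8.1, h5.2 h8.2⟩, Or.inr h8⟩
        · refine Or.inr ⟨?_, ?_, h4, h5⟩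
          · rintro (h | h)
            · exact h6 h
            · exact h8 ⟨h7.1 h.1, h5.1 h.2⟩
          · rintro (h | h)
            · exact hE0 h
            · exact h8 h
    · intro hle
      rw [le_iff] at hle
      obtain ⟨D, hD, h1⟩ := hle e0 hne
      obtain ⟨n, hn, e', h2, h3, h4, h5, h6, h7, h8, h9⟩ :=
        hbeyond (O ∩ L) inter_subset_left hL1 D hD
      refine h5 (h1 e' h2 h9 h3 (Or.inl ⟨Or.inr ⟨h4, ?_⟩, Or.inl (E.equiv.refl _)⟩))
      exact (side_level h6 h7 h3 h8).2 hn.2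
  · rw [lt_iff_le_not_ge]
    constructor
    · rw [le_iff]
      intro e he
      refine ⟨∅, by simp, fun e' _ _ _ h => ?_⟩
      rcases h with ⟨h1, h2⟩ | ⟨_, _, h3, _⟩
      · have h3 : F.rel e' e0 := h1.elim (fun h => hEF _ _ h) fun h => h.1
        have h4 : F.rel e e0 := h2.elim (fun h => hEF _ _ h) fun h => h.1
        exact F.equiv.trans h3 (F.equiv.symm h4)
      · exact hEF _ _ h3
    · intro hle
      rw [le_iff] at hle
      obtain ⟨D, hD, h1⟩ := hle e0 hne
      obtain ⟨n, hn, e', h2, h3, h4, h5, h6, h7, h8, h9⟩ :=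
        hbeyond (O \ L) sdiff_subset hL2 D hD
      have h10 := h1 e' h2 h9 h3 h4
      rcases h10 with ⟨h11, -⟩ | ⟨-, h12, -⟩
      · rcases h11 with h11 | ⟨-, h11⟩
        · exact h5 h11
        · exact hn.2 ((side_level h6 h7 h3 h8).1 h11)
      · exact h12 (Or.inl (E.equiv.refl _))

/-- **The tolerant learning hierarchy is dense.** -/
theorem result : DenselyOrdered TLH ∧ ∀ E F : Tol, E < F → ∃ G : Tol, E < G ∧ G < F := by
  have key : ∀ E F : Tol, E < F → ∃ G : Tol, E < G ∧ G < F := by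
    intro E F hEF
    have h1 : inter E F ≤ E := inter_le_left E F
    have h2 : E ≤ inter E F := le_inter hEF.le
    obtain ⟨G, h3, h4⟩ := dense_of_subset (E := inter E F) (F := F) (fun _ _ h => h.2)
      (fun h => hEF.not_ge (h.trans h1))
    exact ⟨G, lt_of_le_of_lt h2 h3, h4⟩
  refine ⟨⟨fun a b hab => ?_⟩, key⟩
  induction a using Antisymmetrization.ind with
  | _ E =>
    induction b using Antisymmetrization.ind with
    | _ F =>
      obtain ⟨G, h1, h2⟩ := key E F (toAntisymmetrization_lt_toAntisymmetrization_iff.1 hab)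
      exact ⟨toAntisymmetrization _ G, toAntisymmetrization_lt_toAntisymmetrization_iff.2 h1,
        toAntisymmetrization_lt_toAntisymmetrization_iff.2 h2⟩

end Pool.Agent.Results.MP_555fce_lc.Density
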